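import Mathlib
import Pool.Agent.J4.H4.CmwQ
import Pool.Agent.Results.MP_697e97_al.EndRandomGraph

/-!
# The group `Aut(ℚ, ≤)` has infinite commutative submonoid width

An abelian group `A` of automorphisms of `(ℚ, ≤)` is eventually dominated by a single function, see
`Pool/Agent/J4/H4/CmwQ.lean`, and so are finite products of such groups. But the group of all
automorphisms is not.
-/

set_option autoImplicit false

namespace Pool.Agent.Results.MP_697e97_al.AutRationals

open Pool.Agent.Results.MP_697e97_al.EndRandomGraph (cmw IsProductOfCommutative)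

/-- an automorphism as an order-preserving map -/
def toMap : (ℚ ≃o ℚ) →* (ℚ →o ℚ) where
  toFun f := (f : ℚ →o ℚ)
  map_one' := rfl
  map_mul' _ _ := rfl

/-- The commutative submonoid width of the group `ℚ ≃o ℚ` of all order-preserving bijections from
the rationals to the rationals, under composition, is infinite. -/
theorem result : cmw (ℚ ≃o ℚ) = ⊤ := by
  unfold cmw
  simp only [iInf_eq_top]
  intro n hn
  obtain ⟨C, hC, h⟩ := hn
  obtain ⟨f, hf⟩ := Pool.Agent.J4.H4.CmwQ.exists_not_prod n (fun i => toMap '' (C i : Set _)) (by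
    rintro i _ ⟨a, ha, rfl⟩ _ ⟨b, hb, rfl⟩
    rw [← map_mul, ← map_mul, hC i a ha b hb])
  obtain ⟨c, hc, hp⟩ := h f
  obtain ⟨x, hx⟩ := hf (fun i => toMap (c i)) (fun i => ⟨c i, hc i, rfl⟩)
  refine absurd ?_ hx
  have h1 : (List.ofFn fun i => toMap (c i)).prod = toMap (List.ofFn c).prod := by
    rw [map_list_prod, List.map_ofFn]
    rfl
  rw [h1, hp]
  rfl

end Pool.Agent.Results.MP_697e97_al.AutRationals
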