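import Mathlib
import Pool.Agent.J4.H4.CmwQ
import Pool.Agent.Results.MP_697e97_al.EndRandomGraph

/-!
# The monoid `End(ℚ, ≤)` has infinite commutative submonoid width

If `A` is a commutative set of order-preserving maps of the rationals, then there is one function
`H` such that every element of `A` is eventually bounded by `H`: if the orbit `A x₀` of some point
is unbounded, then for every `x` there is an element `B x` of `A` with `x ≤ B x x₀`, so that
`a x ≤ a (B x x₀) = B x (a x₀)` depends only on `x` and on the rational number `a x₀`; if all orbits
are bounded, this is clear. The same holds for finite products of commutative sets; but for every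
function `H` there is an automorphism of `(ℚ, ≤)` which is not eventually bounded by `H`.
-/

set_option autoImplicit false

namespace Pool.Agent.Results.MP_697e97_al.EndRationals

open Pool.Agent.Results.MP_697e97_al.EndRandomGraph (cmw IsProductOfCommutative)

/-- The commutative submonoid width of the monoid `ℚ →o ℚ` of all order-preserving maps from the
rationals to the rationals, under composition, is infinite. -/
theorem result : cmw (ℚ →o ℚ) = ⊤ := by
  unfold cmw
  simp only [iInf_eq_top]
  intro n hn
  obtain ⟨C, hC, h⟩ := hn
  obtain ⟨f, hf⟩ := Pool.Agent.J4.H4.CmwQ.exists_not_prod n (fun i => (C i : Set (ℚ →o ℚ))) hC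
  obtain ⟨c, hc, hp⟩ := h (f : ℚ →o ℚ)
  obtain ⟨x, hx⟩ := hf c hc
  exact absurd (by rw [hp]; rfl) hx

end Pool.Agent.Results.MP_697e97_al.EndRationals
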